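import Mathlib

/-!
# MP_f1fe0b_lc: strict equilibria in all induced subgames do not give generalized weak acyclicity
-/

namespace Pool.Agent.Results.MP_f1fe0b_lc.Counterexample

/-! ### Definitions -/

section defs

variable {n : ℕ} {A : Fin n → Type} (r : Fin n → (∀ i, A i) → ℝ)

/-- `Best^i(a^{-i})`: the maximisers of `b ↦ r^i(b, a^{-i})`. -/
def Best (i : Fin n) (a : ∀ i, A i) : Set (A i) :=
  {b | ∀ b', r i (Function.update a i b') ≤ r i (Function.update a i b)}

/-- Player `i` is satisfied at `a`. -/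
def Satisfied (i : Fin n) (a : ∀ i, A i) : Prop := a i ∈ Best r i a

/-- `a` is a pure Nash equilibrium. -/
def IsNE (a : ∀ i, A i) : Prop := ∀ i, Satisfied r i a

/-- The induced subgame with player set `S`, the actions outside `S` being fixed as in `a`, has a
strict pure Nash equilibrium (the restriction of `a'` to `S`). -/
def SubgameHasStrictNE (S : Finset (Fin n)) (a : ∀ i, A i) : Prop :=
  ∃ a' : ∀ i, A i, (∀ i, i ∉ S → a' i = a i) ∧ ∀ i ∈ S, Best r i a' = {a' i}

/-- Edges of the satisficing graph: satisfied players keep their actions. -/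
def Edge (a a' : ∀ i, A i) : Prop := ∀ i, Satisfied r i a → a' i = a i

/-- Generalized weak acyclicity. -/
def GeneralizedWeaklyAcyclic : Prop :=
  ∀ a : ∀ i, A i, ∃ a', Relation.ReflTransGen (Edge r) a a' ∧ IsNE r a'

end defs

/-! ### The game -/

/-- Best-response functions: the value does not depend on the own action. -/
def β (i : Fin 3) (a : Fin 3 → Fin 3) : Fin 3 :=
  match i with
  | 0 => (![![1, 1, 1], ![0, 0, 0], ![1, 0, 2]] : Fin 3 → Fin 3 → Fin 3) (a 1) (a 2)
  | 1 => (![![1, 0, 1], ![1, 0, 0], ![1, 0, 2]] : Fin 3 → Fin 3 → Fin 3) (a 0) (a 2)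
  | 2 => (![![1, 1, 1], ![0, 0, 0], ![1, 0, 2]] : Fin 3 → Fin 3 → Fin 3) (a 0) (a 1)

/-- Rewards: `1` for the best response, `0` otherwise. -/
noncomputable def rew (i : Fin 3) (a : Fin 3 → Fin 3) : ℝ := if a i = β i a then 1 else 0

lemma β_update (i : Fin 3) (a : Fin 3 → Fin 3) (b : Fin 3) : β i (Function.update a i b) = β i a := by
  fin_cases i <;> simp [β, Function.update]

lemma rew_update (i : Fin 3) (a : Fin 3 → Fin 3) (b : Fin 3) :
    rew i (Function.update a i b) = if b = β i a then 1 else 0 := by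
  unfold rew
  rw [β_update, Function.update_self]

lemma best_eq (i : Fin 3) (a : Fin 3 → Fin 3) :
    Best (A := fun _ => Fin 3) rew i a = {β i a} := by
  ext b
  simp only [Best, Set.mem_ofPred_eq, Set.mem_singleton_iff]
  constructor
  · intro h
    have h1 := h (β i a)
    rw [rew_update, rew_update, if_pos rfl] at h1
    by_contra hb
    rw [if_neg hb] at h1
    norm_num at h1
  · rintro rfl b'
    rw [rew_update, rew_update, if_pos rfl]
    split_ifs <;> norm_num

lemma satisfied_iff (i : Fin 3) (a : Fin 3 → Fin 3) :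
    Satisfied (A := fun _ => Fin 3) rew i a ↔ a i = β i a := by
  unfold Satisfied
  rw [best_eq, Set.mem_singleton_iff]

/-- The trap. -/
def T (a : Fin 3 → Fin 3) : Prop :=
  (a 0 = 1 ∧ a 2 = 0) ∨ (a 1 = 1 ∧ a 2 = 0) ∨ (a 0 = 0 ∧ a 1 = 1) ∨ (a 0 = 0 ∧ a 2 = 1) ∨
    (a 1 = 0 ∧ a 2 = 1) ∨ (a 0 = 1 ∧ a 1 = 0)

instance : DecidablePred T := fun a => by unfold T; infer_instance

lemma strict_all : ∀ (S : Finset (Fin 3)) (x y z : Fin 3), ∃ x' y' z' : Fin 3,
    (∀ i, i ∉ S → (![x', y', z'] : Fin 3 → Fin 3) i = ![x, y, z] i) ∧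
      ∀ i ∈ S, β i ![x', y', z'] = (![x', y', z'] : Fin 3 → Fin 3) i := by
  decide +kernel

lemma trap_closed : ∀ x y z : Fin 3, T ![x, y, z] → ∀ x' y' z' : Fin 3,
    (∀ i, (![x, y, z] : Fin 3 → Fin 3) i = β i ![x, y, z] →
      (![x', y', z'] : Fin 3 → Fin 3) i = ![x, y, z] i) → T ![x', y', z'] := by
  decide +kernel

lemma trap_noNE : ∀ x y z : Fin 3, T ![x, y, z] →
    ¬ ∀ i, (![x, y, z] : Fin 3 → Fin 3) i = β i ![x, y, z] := by
  decide +kernel

lemma eta (a : Fin 3 → Fin 3) : a = ![a 0, a 1, a 2] := by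
  funext i; fin_cases i <;> rfl

/-- **Theorem.** There is a three-player game with three actions per player in which every induced
subgame has a strict pure Nash equilibrium, but which is not generalized weakly acyclic. -/
theorem result : ∃ r : Fin 3 → (∀ _ : Fin 3, Fin 3) → ℝ,
    (∀ (S : Finset (Fin 3)) (a : ∀ _ : Fin 3, Fin 3),
      SubgameHasStrictNE (A := fun _ => Fin 3) r S a) ∧
    ¬ GeneralizedWeaklyAcyclic (A := fun _ => Fin 3) r := by
  refine ⟨rew, ?_, ?_⟩
  · intro S a
    obtain ⟨x, y, z, h1, h2⟩ := strict_all S (a 0) (a 1) (a 2)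
    refine ⟨![x, y, z], ?_, ?_⟩
    · intro i hi
      rw [h1 i hi, ← eta]
    · intro i hi
      rw [best_eq, h2 i hi]
  · intro h
    obtain ⟨a', hpath, hNE⟩ := h ![1, 0, 0]
    have hT : T a' := by
      clear hNE
      induction hpath with
      | refl => decide
      | @tail b c _ hbc ih =>
        have hb := eta b
        have hc := eta c
        have := trap_closed (b 0) (b 1) (b 2) (by rw [← hb]; exact ih) (c 0) (c 1) (c 2) (by
          rw [← hb, ← hc]
          intro i hi
          exact hbc i ((satisfied_iff i b).2 hi))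
        rw [← hc] at this
        exact this
    have ha := eta a'
    refine trap_noNE (a' 0) (a' 1) (a' 2) (by rw [← ha]; exact hT) ?_
    rw [← ha]
    intro i
    exact (satisfied_iff i a').1 (hNE i)

end Pool.Agent.Results.MP_f1fe0b_lc.Counterexample
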